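import Pool.Agent.Q119.VS.Main
import Pool.Agent.Helper555.Tau.P_finite_unions

set_option autoImplicit false

open Finset Module Filter

namespace Pool.Agent.Results.MP_b5ddc9_co.TwoD

/-- The colouring `χ` of `𝔽₂ⁿ` (the value at `0` is irrelevant) has a `k`-dimensional subspace
that is monochromatic in colour `i`: every nonzero vector of it has colour `i`. -/
def Mono {n r : ℕ} (χ : (Fin n → ZMod 2) → Fin r) (k : ℕ) (i : Fin r) : Prop :=
  ∃ V : Submodule (ZMod 2) (Fin n → ZMod 2), finrank (ZMod 2) V = k ∧ ∀ v ∈ V, v ≠ 0 → χ v = i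

/-- Every colouring of the nonzero vectors of `𝔽₂ⁿ` with the `r` colours `0, …, r - 1` has a
`2`-dimensional monochromatic subspace in one of the first `r - 1` colours, or a `d`-dimensional
monochromatic subspace in the last colour `r - 1`. -/
def Arrows (r d n : ℕ) : Prop :=
  ∀ χ : (Fin n → ZMod 2) → Fin r,
    (∃ i : Fin r, (i : ℕ) + 1 < r ∧ Mono χ 2 i) ∨ (∃ i : Fin r, (i : ℕ) + 1 = r ∧ Mono χ d i)

/-- The Ramsey number: the least `n` with `Arrows r d n`. -/
noncomputable def R (r d : ℕ) : ℕ := sInf {n | Arrows r d n}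

/-- the indicator vector of a finite set -/
def vec (n : ℕ) (S : Finset ℕ) : Fin n → ZMod 2 := fun i => if (i : ℕ) ∈ S then 1 else 0

lemma vec_biUnion (n : ℕ) (F : ℕ → Finset ℕ) (I : Finset ℕ)
    (hF : ∀ i ∈ I, ∀ j ∈ I, i ≠ j → Disjoint (F i) (F j)) :
    vec n (I.biUnion F) = ∑ i ∈ I, vec n (F i) := by
  classical
  funext x
  rw [Finset.sum_apply]
  simp only [vec]
  rw [← Finset.sum_filter]
  by_cases hx : (x : ℕ) ∈ I.biUnion F
  · rw [if_pos hx]
    obtain ⟨i, hi, hxi⟩ := Finset.mem_biUnion.1 hx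
    have : I.filter (fun i => (x : ℕ) ∈ F i) = {i} := by
      ext j
      rw [Finset.mem_filter, Finset.mem_singleton]
      constructor
      · rintro ⟨hj, hxj⟩
        by_contra hne
        exact Finset.disjoint_left.1 (hF j hj i hi hne) hxj hxi
      · rintro rfl
        exact ⟨hi, hxi⟩
    rw [this, Finset.sum_singleton]
  · rw [if_neg hx]
    have : I.filter (fun i => (x : ℕ) ∈ F i) = ∅ := by
      ext j
      simp only [Finset.mem_filter, Finset.notMem_empty, iff_false, not_and]
      intro hj hxj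
      exact hx (Finset.mem_biUnion.2 ⟨j, hj, hxj⟩)
    rw [this, Finset.sum_empty]

lemma block_lt {F : ℕ → Finset ℕ} (hne : ∀ i, (F i).Nonempty)
    (hF : ∀ i, ∀ x ∈ F i, ∀ y ∈ F (i + 1), x < y) {i j : ℕ} (hij : i < j) :
    ∀ x ∈ F i, ∀ y ∈ F j, x < y := by
  induction j, hij using Nat.le_induction with
  | base => exact hF i
  | succ j hj ih =>
    intro x hx y hy
    obtain ⟨z, hz⟩ := hne j
    exact (ih x hx z hz).trans (hF j z hz y hy)

lemma block_disjoint {F : ℕ → Finset ℕ} (hne : ∀ i, (F i).Nonempty)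
    (hF : ∀ i, ∀ x ∈ F i, ∀ y ∈ F (i + 1), x < y) {i j : ℕ} (hij : i ≠ j) :
    Disjoint (F i) (F j) := by
  rw [Finset.disjoint_left]
  intro x hx hy
  rcases lt_or_gt_of_ne hij with h | h
  · exact lt_irrefl _ (block_lt hne hF h x hx x hy)
  · exact lt_irrefl _ (block_lt hne hF h x hy x hx)

/-- The Ramsey number is finite. -/
theorem arrows_nonempty (r d : ℕ) (hr : 1 ≤ r) : {n | Arrows r d n}.Nonempty := by
  classical
  by_contra hemp
  have hall : ∀ n, ∃ χ : (Fin n → ZMod 2) → Fin r,
      (∀ i : Fin r, (i : ℕ) + 1 < r → ¬ Mono χ 2 i) ∧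
      (∀ i : Fin r, (i : ℕ) + 1 = r → ¬ Mono χ d i) := by
    intro n
    by_contra h
    apply hemp
    refine ⟨n, ?_⟩
    intro χ
    by_contra h2
    push Not at h2
    exact h ⟨χ, h2.1, h2.2⟩
  choose χ h2 hd using hall
  -- the limit colouring
  have hlim : ∀ S : Finset ℕ, ∃ c : Fin r, ∀ᶠ n in (hyperfilter ℕ : Filter ℕ),
      χ n (vec n S) = c := by
    intro S
    obtain ⟨c, hc⟩ := Ultrafilter.eq_pure_of_finite
      ((hyperfilter ℕ).map (fun n => χ n (vec n S)))
    refine ⟨c, ?_⟩
    have : ({c} : Set (Fin r)) ∈ (hyperfilter ℕ).map (fun n => χ n (vec n S)) := by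
      rw [hc]
      exact Ultrafilter.mem_pure.2 rfl
    exact this
  choose lim hlim using hlim
  obtain ⟨F, hne, hblock, c, hc⟩ := Tau555.finite_unions lim
  -- a large dimension
  have key : ∀ k : ℕ, ∃ n, Mono (χ n) k c := by
    intro k
    have hev : ∀ᶠ n in (hyperfilter ℕ : Filter ℕ), ∀ I ∈ (Finset.range k).powerset.erase ∅,
        χ n (vec n (I.biUnion F)) = c := by
      rw [Filter.eventually_all_finset]
      intro I hI
      have hI' : I.Nonempty := Finset.nonempty_iff_ne_empty.2 (Finset.mem_erase.1 hI).1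
      have := hlim (I.biUnion F)
      rw [hc I hI'] at this
      exact this
    have hlarge : ∀ᶠ n in (hyperfilter ℕ : Filter ℕ), ∀ x ∈ (Finset.range k).biUnion F, x < n := by
      rw [Filter.eventually_all_finset]
      intro x _
      apply Filter.Eventually.filter_mono Nat.hyperfilter_le_atTop
      exact Filter.eventually_gt_atTop x
    obtain ⟨n, hn1, hn2⟩ := (hev.and hlarge).exists
    refine ⟨n, ?_⟩
    have hpick : ∀ i : Fin k, ∃ x : Fin n, (x : ℕ) ∈ F i := by
      intro i
      obtain ⟨x, hx⟩ := hne i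
      exact ⟨⟨x, hn2 x (Finset.mem_biUnion.2 ⟨i, Finset.mem_range.2 i.2, hx⟩)⟩, hx⟩
    choose x hx using hpick
    have hli : LinearIndependent (ZMod 2) (fun i : Fin k => vec n (F i)) := by
      rw [Fintype.linearIndependent_iff]
      intro g hg i
      have h1 := congrFun hg (x i)
      rw [Finset.sum_apply, Finset.sum_eq_single i] at h1
      · simpa [vec, hx i] using h1
      · intro j _ hji
        have : (x i : ℕ) ∉ F j := by
          intro hmem
          have hne' : (j : ℕ) ≠ (i : ℕ) := fun h => hji (Fin.ext h)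
          exact Finset.disjoint_left.1 (block_disjoint hne hblock hne') hmem (hx i)
        simp [vec, this]
      · intro h
        exact absurd (Finset.mem_univ i) h
    refine ⟨Submodule.span (ZMod 2) (Set.range (fun i : Fin k => vec n (F i))), ?_, ?_⟩
    · rw [finrank_span_eq_card hli, Fintype.card_fin]
    · intro v hv hv0
      rw [Submodule.mem_span_range_iff_exists_fun] at hv
      obtain ⟨g, rfl⟩ := hv
      set I : Finset (Fin k) := Finset.univ.filter (fun i => g i ≠ 0) with hI
      have hg1 : ∀ i, g i = if g i ≠ 0 then 1 else 0 := by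
        intro i
        generalize g i = a
        revert a
        decide
      have hsum : ∑ i, g i • vec n (F i) = vec n ((I.map Fin.valEmbedding).biUnion F) := by
        rw [vec_biUnion]
        · rw [Finset.sum_map, hI, Finset.sum_filter]
          apply Finset.sum_congr rfl
          intro i _
          by_cases h : g i = 0
          · rw [h, if_neg (by simp), zero_smul]
          · rw [if_pos h]
            have h1 : g i = 1 := by rw [hg1 i, if_pos h]
            rw [h1, one_smul]
            rfl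
        · intro i _ j _ hij
          exact block_disjoint hne hblock hij
      rw [hsum]
      apply hn1
      rw [Finset.mem_erase, Finset.mem_powerset]
      constructor
      · intro hemp
        rw [Finset.map_eq_empty] at hemp
        apply hv0
        apply Finset.sum_eq_zero
        intro i _
        have : i ∉ I := by rw [hemp]; simp
        rw [hI, Finset.mem_filter] at this
        have hgi : g i = 0 := by
          by_contra h
          exact this ⟨Finset.mem_univ _, h⟩
        rw [hgi, zero_smul]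
      · intro i hi
        obtain ⟨j, _, rfl⟩ := Finset.mem_map.1 hi
        exact Finset.mem_range.2 j.2
  have hcr : (c : ℕ) + 1 < r ∨ (c : ℕ) + 1 = r := by
    have := c.2
    omega
  rcases hcr with h | h
  · obtain ⟨n, hn⟩ := key 2
    exact h2 n c h hn
  · obtain ⟨n, hn⟩ := key d
    exact hd n c h hn

lemma not_arrows {r d m n : ℕ} (hr : 2 ≤ r) (hm : 10 ≤ m) (hmd : m ≤ d)
    (hn : n ≤ 2 * (d - m)) (hs : n * d ≤ 2 ^ (m - 10)) : ¬ Arrows r d n := by
  classical
  intro h
  obtain ⟨A, hA0, hA1, hA2⟩ := Q119.VS.exists_sumfree hm hmd hn hs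
  rcases h (fun v => if v ∈ A then ⟨0, by omega⟩ else ⟨r - 1, by omega⟩) with
    ⟨i, hi, V, hV, hmono⟩ | ⟨i, hi, V, hV, hmono⟩
  · have hsub : ∀ v ∈ V, v ≠ 0 → v ∈ A := by
      intro v hv hv0
      by_contra hvA
      have h1 := hmono v hv hv0
      beta_reduce at h1
      rw [if_neg hvA] at h1
      rw [← h1] at hi
      simp only at hi
      omega
    obtain ⟨b, hb⟩ : ∃ b : Basis (Fin 2) (ZMod 2) V, True :=
      ⟨Module.finBasisOfFinrankEq (ZMod 2) V hV, trivial⟩
    have hli := b.linearIndependent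
    have h0 : (b 0 : Fin n → ZMod 2) ≠ 0 := by
      intro h0
      exact b.ne_zero 0 (Subtype.ext h0)
    have h1 : (b 1 : Fin n → ZMod 2) ≠ 0 := by
      intro h0
      exact b.ne_zero 1 (Subtype.ext h0)
    have h01 : (b 0 : Fin n → ZMod 2) ≠ b 1 := by
      intro h0
      have := b.injective (Subtype.ext h0)
      exact absurd this (by decide)
    have hs0 : (b 0 : Fin n → ZMod 2) + b 1 ≠ 0 := by
      intro h0
      apply h01
      have h3 : (b 0 : Fin n → ZMod 2) = - b 1 := eq_neg_of_add_eq_zero_left h0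
      rw [h3]
      funext x
      simp only [Pi.neg_apply, ZMod.neg_eq_self_mod_two]
    exact hA1 _ (hsub _ (b 0).2 h0) _ (hsub _ (b 1).2 h1) h01
      (hsub _ (V.add_mem (b 0).2 (b 1).2) hs0)
  · obtain ⟨x, hxA, hxV⟩ := hA2 V hV
    have hx0 : x ≠ 0 := fun h => hA0 (h ▸ hxA)
    have h1 := hmono x hxV hx0
    beta_reduce at h1
    rw [if_pos hxA] at h1
    rw [← h1] at hi
    simp only at hi
    omega

/-- **Lower bound.** `R^{(r)}(2; d) ≥ 2 d - 4 log₂ d - 24` for all `r ≥ 2` and `d ≥ 1`. -/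
theorem lower (r d : ℕ) (hr : 2 ≤ r) (hd : 1 ≤ d) :
    2 * (d : ℝ) - 4 * Real.logb 2 d - 24 ≤ R r d := by
  have hd0 : (0 : ℝ) < d := by exact_mod_cast hd
  have hlog : 0 ≤ Real.logb 2 d := Real.logb_nonneg (by norm_num) (by exact_mod_cast hd)
  set k := ⌈2 * Real.logb 2 d⌉₊ with hk
  have hk1 : 2 * Real.logb 2 d ≤ k := Nat.le_ceil _
  have hk2 : (k : ℝ) < 2 * Real.logb 2 d + 1 := Nat.ceil_lt_add_one (by linarith)
  have hR0 : (0 : ℝ) ≤ R r d := Nat.cast_nonneg _
  have hpow : d ^ 2 ≤ 2 ^ k := by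
    have h1 : ((d : ℝ)) ^ 2 ≤ 2 ^ k := by
      have h2 : (2 : ℝ) ^ (2 * Real.logb 2 d) = (d : ℝ) ^ 2 := by
        rw [mul_comm, Real.rpow_mul (by norm_num), Real.rpow_logb (by norm_num) (by norm_num) hd0]
        norm_num
      rw [← h2, ← Real.rpow_natCast 2 k]
      exact Real.rpow_le_rpow_of_exponent_le (by norm_num) hk1
    exact_mod_cast h1
  by_cases hmd : k + 11 ≤ d
  · have hnot : ∀ n, Arrows r d n → 2 * (d - (k + 11)) < n := by
      intro n hn
      by_contra hle
      push Not at hle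
      refine not_arrows hr (by omega) hmd hle ?_ hn
      calc n * d ≤ (2 * d) * d := by
            apply Nat.mul_le_mul_right
            omega
        _ = 2 * d ^ 2 := by ring
        _ ≤ 2 * 2 ^ k := Nat.mul_le_mul_left _ hpow
        _ = 2 ^ (k + 11 - 10) := by
            rw [show k + 11 - 10 = k + 1 by omega, pow_succ]
            ring
    have hmem := Nat.sInf_mem (arrows_nonempty r d (by omega))
    have h3 := hnot _ hmem
    have h4 : 2 * (d - (k + 11)) < R r d := h3
    have h5 : 2 * d < R r d + 2 * (k + 11) := by omega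
    have h6 : (2 * d : ℝ) < R r d + 2 * (k + 11) := by exact_mod_cast h5
    linarith
  · push Not at hmd
    have h5 : (d : ℝ) < k + 11 := by exact_mod_cast hmd
    linarith

/-- Main result: for every number `r ≥ 2` of colours, `R^{(r)}(2; d) ≥ 2 d - 4 log₂ d - 24`;
in particular there is an absolute `c > 0` (one may take `c = 1/2`) with
`R^{(1000)}(2; d) ≥ (3/2 + c - o(1)) d`. The numbers are well defined (the defining sets are
nonempty). -/
theorem result :
    (∀ r d : ℕ, 2 ≤ r → 2 ≤ d → {n | Arrows r d n}.Nonempty) ∧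
    (∀ r d : ℕ, 2 ≤ r → 2 ≤ d → 2 * (d : ℝ) - 4 * Real.logb 2 d - 24 ≤ R r d) ∧
    (∃ c : ℝ, 0 < c ∧ ∀ ε : ℝ, 0 < ε →
      ∀ᶠ d : ℕ in atTop, (3 / 2 + c - ε) * (d : ℝ) ≤ R 1000 d) := by
  refine ⟨fun r d hr _ => arrows_nonempty r d (by omega),
    fun r d hr hd => lower r d hr (by omega), 1 / 2, by norm_num, ?_⟩
  intro ε hε
  have h1 : Tendsto (fun d : ℕ => (4 * Real.logb 2 d + 24) / (d : ℝ)) atTop (nhds 0) := by
    have h2 : Tendsto (fun x : ℝ => Real.log x / x) atTop (nhds 0) :=
      Real.isLittleO_log_id_atTop.tendsto_div_nhds_zero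
    have h3 : Tendsto (fun d : ℕ => Real.log (d : ℝ) / (d : ℝ)) atTop (nhds 0) :=
      h2.comp tendsto_natCast_atTop_atTop
    have h4 : Tendsto (fun d : ℕ => (24 : ℝ) / (d : ℝ)) atTop (nhds 0) :=
      tendsto_const_div_atTop_nhds_zero_nat 24
    have h5 := (h3.const_mul (4 / Real.log 2)).add h4
    rw [mul_zero, add_zero] at h5
    refine h5.congr ?_
    intro d
    rw [Real.logb]
    ring
  have h6 : ∀ᶠ d : ℕ in atTop, (4 * Real.logb 2 d + 24) / (d : ℝ) < ε :=
    h1.eventually (gt_mem_nhds hε)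
  filter_upwards [h6, eventually_ge_atTop 1] with d hd1 hd2
  have hd0 : (0 : ℝ) < d := by exact_mod_cast hd2
  rw [div_lt_iff₀ hd0] at hd1
  have := lower 1000 d (by norm_num) hd2
  linarith

end Pool.Agent.Results.MP_b5ddc9_co.TwoD
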